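import Mathlib

/-!
# MP_e26f8a_co: every vertex in a red and in a blue `K_k`

`f(k)` is the least number of vertices of a (nonempty, simple) graph whose edges are coloured red and
blue such that every vertex lies in a red `K_k` and in a blue `K_k`.  We prove that
`f(k) = 4 (k - 1)` for every `k ≥ 2`.

Lower bound.  Put `n = k - 1`, let `R v`, `B v` be a red and a blue `k`-clique through `v`.  A red and a
blue clique share at most one vertex.  Let `x` be a stationary distribution of the Markov chain
`v → w` uniform in `R v \ {v}` `→ v'` uniform in `B w \ {w}` and `y` the distribution of the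
intermediate vertex.  If `v ~ x`, `w ~ y` are independent then
`1 ≥ E |R v ∩ B w| = ∑ (x + n y)(y + n x) ≥ n ∑ (x + y)² ≥ 4 n / N`.
-/

namespace Pool.Agent.Results.MP_e26f8a_co.ExactValue

open Finset

/-- `S` is a clique of `G` all of whose edges have colour `b` (`true` is red, `false` is blue). -/
def IsMonoClique {V : Type} (G : SimpleGraph V) (c : G.edgeSet → Bool) (b : Bool)
    (S : Finset V) : Prop :=
  ∀ x ∈ S, ∀ y ∈ S, x ≠ y → ∃ h : G.Adj x y, c ⟨s(x, y), h⟩ = b

/-- There are a graph `G` on `N ≥ 1` vertices and a red-blue colouring of its edges such that every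
vertex lies in a red `K_k` and in a blue `K_k`. -/
def Works (k N : ℕ) : Prop :=
  0 < N ∧ ∃ (G : SimpleGraph (Fin N)) (c : G.edgeSet → Bool), ∀ v : Fin N, ∀ b : Bool,
    ∃ S : Finset (Fin N), v ∈ S ∧ S.card = k ∧ IsMonoClique G c b S

/-- A finite row-stochastic matrix has a stationary distribution. -/
theorem exists_stationary {V : Type} [Fintype V] [DecidableEq V] [Nonempty V]
    (M : V → V → ℝ) (hM : ∀ v w, 0 ≤ M v w) (hrow : ∀ v, ∑ w, M v w = 1) :
    ∃ x : V → ℝ, (∀ v, 0 ≤ x v) ∧ ∑ v, x v = 1 ∧ ∀ w, ∑ v, x v * M v w = x w := by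
  classical
  -- the matrix `M - 1` is singular
  set A : Matrix V V ℝ := Matrix.of M - 1 with hA
  have h1 : ∃ u : V → ℝ, u ≠ 0 ∧ A.mulVec u = 0 := by
    refine ⟨fun _ => 1, ?_, ?_⟩
    · intro h
      have := congrFun h (Classical.arbitrary V)
      simp at this
    · funext v
      rw [hA, Matrix.sub_mulVec, Matrix.one_mulVec]
      simp only [Pi.sub_apply, Matrix.mulVec, dotProduct, Matrix.of_apply, mul_one, hrow v]
      simp
  have hdet : A.det = 0 := Matrix.exists_mulVec_eq_zero_iff.mp h1
  obtain ⟨z, hz0, hz⟩ := Matrix.exists_vecMul_eq_zero_iff.mpr hdet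
  have hzM : ∀ w, ∑ v, z v * M v w = z w := by
    intro w
    have h2 := congrFun hz w
    rw [hA, Matrix.vecMul_sub, Matrix.vecMul_one] at h2
    simp only [Pi.sub_apply, Matrix.vecMul, dotProduct, Matrix.of_apply, Pi.zero_apply] at h2
    linarith
  have hle : ∀ w, |z w| ≤ ∑ v, |z v| * M v w := by
    intro w
    calc |z w| = |∑ v, z v * M v w| := by rw [hzM w]
      _ ≤ ∑ v, |z v * M v w| := Finset.abs_sum_le_sum_abs _ _
      _ = ∑ v, |z v| * M v w := by
        refine Finset.sum_congr rfl fun v _ => ?_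
        rw [abs_mul, abs_of_nonneg (hM v w)]
  have hsum : ∑ w, |z w| = ∑ w, ∑ v, |z v| * M v w := by
    rw [Finset.sum_comm]
    refine Finset.sum_congr rfl fun v _ => ?_
    rw [← Finset.mul_sum, hrow v, mul_one]
  have heq : ∀ w, |z w| = ∑ v, |z v| * M v w := by
    have := (Finset.sum_eq_sum_iff_of_le (fun w (_ : w ∈ Finset.univ) => hle w)).mp hsum
    intro w
    exact this w (Finset.mem_univ w)
  have hpos : 0 < ∑ v, |z v| := by
    obtain ⟨v, hv⟩ : ∃ v, z v ≠ 0 := by
      by_contra hcon
      push Not at hcon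
      exact hz0 (funext hcon)
    exact Finset.sum_pos' (fun v _ => abs_nonneg _) ⟨v, Finset.mem_univ v, abs_pos.mpr hv⟩
  refine ⟨fun v => |z v| / ∑ v, |z v|, fun v => by positivity, ?_, ?_⟩
  · rw [← Finset.sum_div, div_self hpos.ne']
  · intro w
    show ∑ v, |z v| / (∑ v, |z v|) * M v w = |z w| / (∑ v, |z v|)
    rw [heq w, Finset.sum_div]
    refine Finset.sum_congr rfl fun v _ => ?_
    ring

/-- The combinatorial core of the lower bound: if each vertex `v` of a nonempty finite set is given two
sets `R v ∋ v`, `B v ∋ v` of size `n + 1`, and `R v`, `B w` always share at most one vertex,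
then there are at least `4 n` vertices. -/
theorem core {V : Type} [Fintype V] [DecidableEq V] [Nonempty V] (n : ℕ) (hn : 1 ≤ n)
    (R B : V → Finset V) (hR : ∀ v, v ∈ R v) (hB : ∀ v, v ∈ B v)
    (cR : ∀ v, (R v).card = n + 1) (cB : ∀ v, (B v).card = n + 1)
    (hRB : ∀ v w, (R v ∩ B w).card ≤ 1) : 4 * n ≤ Fintype.card V := by
  classical
  have hn0 : (0 : ℝ) < n := by exact_mod_cast hn
  -- indicator matrices
  let P : V → V → ℝ := fun v w => if w ∈ (R v).erase v then 1 else 0
  let Q : V → V → ℝ := fun v w => if w ∈ (B v).erase v then 1 else 0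
  have hP0 : ∀ v w, 0 ≤ P v w := fun v w => by
    show (0 : ℝ) ≤ if w ∈ (R v).erase v then 1 else 0
    split_ifs <;> norm_num
  have hQ0 : ∀ v w, 0 ≤ Q v w := fun v w => by
    show (0 : ℝ) ≤ if w ∈ (B v).erase v then 1 else 0
    split_ifs <;> norm_num
  have hPsum : ∀ v, ∑ w, P v w = n := by
    intro v
    show ∑ w, (if w ∈ (R v).erase v then (1 : ℝ) else 0) = n
    rw [Finset.sum_ite_mem, Finset.univ_inter, Finset.sum_const, nsmul_eq_mul, mul_one,
      Finset.card_erase_of_mem (hR v), cR v]
    simp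
  have hQsum : ∀ v, ∑ w, Q v w = n := by
    intro v
    show ∑ w, (if w ∈ (B v).erase v then (1 : ℝ) else 0) = n
    rw [Finset.sum_ite_mem, Finset.univ_inter, Finset.sum_const, nsmul_eq_mul, mul_one,
      Finset.card_erase_of_mem (hB v), cB v]
    simp
  obtain ⟨x, hx0, hx1, hx⟩ := exists_stationary (fun v u => (∑ w, P v w * Q w u) / (n : ℝ) ^ 2)
    (fun v u => div_nonneg (Finset.sum_nonneg fun w _ => mul_nonneg (hP0 v w) (hQ0 w u))
      (by positivity))
    (fun v => by
      rw [← Finset.sum_div, Finset.sum_comm]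
      have : ∀ w ∈ (Finset.univ : Finset V), ∑ u, P v w * Q w u = P v w * n := by
        intro w _
        rw [← Finset.mul_sum, hQsum w]
      rw [Finset.sum_congr rfl this, ← Finset.sum_mul, hPsum v]
      field_simp)
  let y : V → ℝ := fun w => (∑ v, x v * P v w) / n
  have hy0 : ∀ w, 0 ≤ y w := fun w =>
    div_nonneg (Finset.sum_nonneg fun v _ => mul_nonneg (hx0 v) (hP0 v w)) hn0.le
  have hyn : ∀ w, ∑ v, x v * P v w = n * y w := by
    intro w
    show _ = (n : ℝ) * ((∑ v, x v * P v w) / n)
    field_simp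
  have hy1 : ∑ w, y w = 1 := by
    have h : (n : ℝ) * ∑ w, y w = n := by
      rw [Finset.mul_sum]
      rw [← Finset.sum_congr rfl (fun w _ => hyn w), Finset.sum_comm]
      have : ∀ v ∈ (Finset.univ : Finset V), ∑ w, x v * P v w = x v * n := by
        intro v _
        rw [← Finset.mul_sum, hPsum v]
      rw [Finset.sum_congr rfl this, ← Finset.sum_mul, hx1, one_mul]
    have := mul_left_cancel₀ hn0.ne' (h.trans (mul_one (n : ℝ)).symm)
    exact this
  have hxn : ∀ u, ∑ w, y w * Q w u = n * x u := by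
    intro u
    have h1 : (n : ℝ) * ∑ w, y w * Q w u = n * (n * x u) := by
      rw [Finset.mul_sum]
      have h2 : ∀ w ∈ (Finset.univ : Finset V),
          (n : ℝ) * (y w * Q w u) = ∑ v, x v * (P v w * Q w u) := by
        intro w _
        rw [← mul_assoc, ← hyn w, Finset.sum_mul]
        exact Finset.sum_congr rfl fun v _ => by ring
      rw [Finset.sum_congr rfl h2, Finset.sum_comm]
      have h3 := hx u
      have h4 : ∀ v ∈ (Finset.univ : Finset V), ∑ w, x v * (P v w * Q w u)
          = (n : ℝ) ^ 2 * (x v * ((∑ w, P v w * Q w u) / (n : ℝ) ^ 2)) := by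
        intro v _
        rw [← Finset.mul_sum]
        field_simp
      rw [Finset.sum_congr rfl h4, ← Finset.mul_sum, h3]
      ring
    exact mul_left_cancel₀ hn0.ne' h1
  -- full indicators
  have hRind : ∀ u, ∑ v, x v * (if u ∈ R v then (1 : ℝ) else 0) = x u + n * y u := by
    intro u
    rw [← hyn u]
    have : ∀ v ∈ (Finset.univ : Finset V), x v * (if u ∈ R v then (1 : ℝ) else 0)
        = (if v = u then x v else 0) + x v * P v u := by
      intro v _
      show _ = _ + x v * (if u ∈ (R v).erase v then (1 : ℝ) else 0)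
      by_cases hvu : v = u
      · subst hvu
        simp [hR v]
      · have hne : u ≠ v := fun h => hvu h.symm
        simp [Finset.mem_erase, hne, hvu]
    rw [Finset.sum_congr rfl this, Finset.sum_add_distrib, Finset.sum_ite_eq' Finset.univ u]
    simp
  have hBind : ∀ u, ∑ w, y w * (if u ∈ B w then (1 : ℝ) else 0) = y u + n * x u := by
    intro u
    rw [← hxn u]
    have : ∀ v ∈ (Finset.univ : Finset V), y v * (if u ∈ B v then (1 : ℝ) else 0)
        = (if v = u then y v else 0) + y v * Q v u := by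
      intro v _
      show _ = _ + y v * (if u ∈ (B v).erase v then (1 : ℝ) else 0)
      by_cases hvu : v = u
      · subst hvu
        simp [hB v]
      · have hne : u ≠ v := fun h => hvu h.symm
        simp [Finset.mem_erase, hne, hvu]
    rw [Finset.sum_congr rfl this, Finset.sum_add_distrib, Finset.sum_ite_eq' Finset.univ u]
    simp
  -- expectation
  have hexp : ∑ u, (x u + n * y u) * (y u + n * x u) ≤ 1 := by
    have h1 : ∑ u, (x u + n * y u) * (y u + n * x u)
        = ∑ v, ∑ w, x v * y w * ((R v ∩ B w).card : ℝ) := by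
      have h2 : ∀ u ∈ (Finset.univ : Finset V), (x u + n * y u) * (y u + n * x u)
          = ∑ v, ∑ w, x v * y w * (if u ∈ R v ∩ B w then (1 : ℝ) else 0) := by
        intro u _
        rw [← hRind u, ← hBind u, Finset.sum_mul_sum]
        refine Finset.sum_congr rfl fun v _ => Finset.sum_congr rfl fun w _ => ?_
        by_cases h1 : u ∈ R v <;> by_cases h2 : u ∈ B w <;> simp [h1, h2]
      rw [Finset.sum_congr rfl h2, Finset.sum_comm]
      refine Finset.sum_congr rfl fun v _ => ?_
      rw [Finset.sum_comm]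
      refine Finset.sum_congr rfl fun w _ => ?_
      rw [← Finset.mul_sum, Finset.sum_ite_mem, Finset.univ_inter, Finset.sum_const, nsmul_eq_mul,
        mul_one]
    rw [h1]
    calc ∑ v, ∑ w, x v * y w * ((R v ∩ B w).card : ℝ)
        ≤ ∑ v, ∑ w, x v * y w := by
          refine Finset.sum_le_sum fun v _ => Finset.sum_le_sum fun w _ => ?_
          have h3 : ((R v ∩ B w).card : ℝ) ≤ 1 := by exact_mod_cast hRB v w
          have h4 : 0 ≤ x v * y w := mul_nonneg (hx0 v) (hy0 w)
          nlinarith
      _ = 1 := by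
          rw [← Finset.sum_mul_sum, hx1, hy1, one_mul]
  have hlow : (n : ℝ) * ∑ u, (x u + y u) ^ 2 ≤ ∑ u, (x u + n * y u) * (y u + n * x u) := by
    rw [Finset.mul_sum]
    refine Finset.sum_le_sum fun u _ => ?_
    have h1 : 0 ≤ ((n : ℝ) - 1) ^ 2 * (x u * y u) :=
      mul_nonneg (sq_nonneg _) (mul_nonneg (hx0 u) (hy0 u))
    nlinarith
  have hcs : (2 : ℝ) ^ 2 ≤ (Fintype.card V : ℝ) * ∑ u, (x u + y u) ^ 2 := by
    have h1 := sq_sum_le_card_mul_sum_sq (s := (Finset.univ : Finset V)) (f := fun u => x u + y u)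
    rw [Finset.sum_add_distrib, hx1, hy1, Finset.card_univ] at h1
    norm_num at h1 ⊢
    exact h1
  have hN : (0 : ℝ) ≤ (Fintype.card V : ℝ) := Nat.cast_nonneg _
  have hfin : (4 * n : ℝ) ≤ (Fintype.card V : ℝ) := by
    have h1 : (n : ℝ) * ∑ u, (x u + y u) ^ 2 ≤ 1 := hlow.trans hexp
    calc (4 * n : ℝ) = n * 2 ^ 2 := by ring
      _ ≤ n * ((Fintype.card V : ℝ) * ∑ u, (x u + y u) ^ 2) :=
          mul_le_mul_of_nonneg_left hcs hn0.le
      _ = (Fintype.card V : ℝ) * (n * ∑ u, (x u + y u) ^ 2) := by ring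
      _ ≤ (Fintype.card V : ℝ) * 1 := mul_le_mul_of_nonneg_left h1 hN
      _ = (Fintype.card V : ℝ) := mul_one _
  exact_mod_cast hfin

/-- Lower bound: `N ≥ 4 (k - 1)`. -/
theorem lower (k N : ℕ) (hk : 2 ≤ k) (h : Works k N) : 4 * (k - 1) ≤ N := by
  classical
  obtain ⟨hN, G, c, hc⟩ := h
  have : Nonempty (Fin N) := ⟨⟨0, hN⟩⟩
  choose S hS1 hS2 hS3 using hc
  have hk' : k - 1 + 1 = k := by omega
  have := core (V := Fin N) (k - 1) (by omega) (fun v => S v true) (fun v => S v false)
    (fun v => hS1 v true) (fun v => hS1 v false) (fun v => by rw [hS2 v true, hk'])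
    (fun v => by rw [hS2 v false, hk']) (fun v w => by
      rw [Finset.card_le_one]
      intro a ha b hb
      by_contra hab
      rw [Finset.mem_inter] at ha hb
      obtain ⟨h1, h2⟩ := hS3 v true a ha.1 b hb.1 hab
      obtain ⟨h3, h4⟩ := hS3 w false a ha.2 b hb.2 hab
      rw [h2] at h4
      exact absurd h4 (by decide))
  simpa using this

/-- The colour of the edges between block `a` and block `b` in the extremal example. -/
def blockCol : Fin 4 → Fin 4 → Bool := fun a b =>
  !![true, true, true, false;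
     true, true, false, true;
     true, false, false, true;
     false, true, true, false] a b

theorem blockCol_symm : ∀ a b, blockCol a b = blockCol b a := by decide

/-- For block `a` and colour `b`: a block `d` and a block `e ≠ d` so that `d` is a clique of
colour `b`, completely joined in colour `b` to block `e`, and `a ∈ {d, e}`. -/
theorem blockCol_spec : ∀ a : Fin 4, ∀ b : Bool, ∃ d e : Fin 4, d ≠ e ∧ (a = d ∨ a = e) ∧
    blockCol d d = b ∧ blockCol d e = b := by decide

/-- Upper bound: the example on `4 (k - 1)` vertices. -/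
theorem upper (k : ℕ) (hk : 2 ≤ k) : Works k (4 * (k - 1)) := by
  classical
  obtain ⟨n, rfl⟩ : ∃ n, k = n + 1 := ⟨k - 1, by omega⟩
  have hn : 1 ≤ n := by omega
  simp only [Nat.add_sub_cancel]
  refine ⟨by omega, ?_⟩
  let e : Fin (4 * n) ≃ Fin 4 × Fin n := finProdFinEquiv.symm
  let col : Sym2 (Fin (4 * n)) → Bool := Sym2.lift ⟨fun u v => blockCol (e u).1 (e v).1,
    fun u v => blockCol_symm _ _⟩
  refine ⟨⊤, fun z => col z.1, fun v b => ?_⟩
  obtain ⟨d, d', hdd, ha, h1, h2⟩ := blockCol_spec (e v).1 b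
  -- the extra vertex
  obtain ⟨w, hw, hvw⟩ : ∃ w : Fin (4 * n), (e w).1 = d' ∧ ((e v).1 = d' → w = v) := by
    rcases ha with ha | ha
    · refine ⟨e.symm (d', ⟨0, by omega⟩), by simp, fun h => ?_⟩
      exact absurd (ha.symm.trans h) hdd
    · exact ⟨v, ha, fun _ => rfl⟩
  let T : Finset (Fin (4 * n)) := Finset.univ.map
    ⟨fun i : Fin n => e.symm (d, i), fun i j hij => by
      have := e.symm.injective hij
      exact (Prod.mk.inj this).2⟩
  have hT : ∀ u, u ∈ T ↔ (e u).1 = d := by
    intro u
    simp only [T, Finset.mem_map, Finset.mem_univ, true_and, Function.Embedding.coeFn_mk]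
    constructor
    · rintro ⟨i, rfl⟩
      simp
    · intro h
      refine ⟨(e u).2, ?_⟩
      rw [← h]
      simp
  have hwT : w ∉ T := by
    rw [hT, hw]
    exact fun h => hdd h.symm
  refine ⟨insert w T, ?_, ?_, ?_⟩
  · rw [Finset.mem_insert, hT]
    rcases ha with ha | ha
    · exact Or.inr ha
    · exact Or.inl (hvw ha).symm
  · rw [Finset.card_insert_of_notMem hwT, Finset.card_map, Finset.card_univ, Fintype.card_fin]
  · intro x hx y hy hxy
    refine ⟨by simpa using hxy, ?_⟩
    show blockCol (e x).1 (e y).1 = b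
    rw [Finset.mem_insert, hT] at hx hy
    rcases hx with hx | hx <;> rcases hy with hy | hy
    · exact absurd (hx.trans hy.symm) hxy
    · rw [hx, hw, hy, blockCol_symm, h2]
    · rw [hy, hw, hx, h2]
    · rw [hx, hy, h1]

/-- **Main result.**  For every `k ≥ 2` the least number of vertices of a graph with a red-blue edge
colouring in which every vertex lies in a red `K_k` and in a blue `K_k` is `4 (k - 1)`. -/
theorem result (k : ℕ) (hk : 2 ≤ k) : IsLeast {N : ℕ | Works k N} (4 * (k - 1)) :=
  ⟨upper k hk, fun N hN => lower k N hk hN⟩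

end Pool.Agent.Results.MP_e26f8a_co.ExactValue
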